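import Pool.Agent.W223.HZ.Stms

/-! LAT: a basis of `ℤ ^ 2` adapted to `(α, V)` (helper349). -/

set_option autoImplicit false

namespace Pool.Agent.W349.HZ.LAT

open Pool.Agent.W223.HZ

/-- the choice of the scale -/
theorem scale (N : ℝ) (h0 : 0 < N) (h2 : N ≤ 2) :
    ∃ j : ℕ, N * ((2 : ℝ) ^ j / 2) ^ 2 ≤ 1 ∧ 1 < 4 * (N * ((2 : ℝ) ^ j / 2) ^ 2) := by
  classical
  have hex : ∃ j : ℕ, 1 < N * ((2 : ℝ) ^ j / 2) ^ 2 := by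
    obtain ⟨n, hn⟩ := pow_unbounded_of_one_lt (4 / N) (by norm_num : (1 : ℝ) < 4)
    refine ⟨n, ?_⟩
    have h1 : ((2 : ℝ) ^ n / 2) ^ 2 = 4 ^ n / 4 := by
      rw [div_pow, ← pow_mul, mul_comm n 2, pow_mul]
      norm_num
    rw [h1]
    rw [div_lt_iff₀ h0] at hn
    linarith
  obtain ⟨m, hm⟩ : ∃ m, m = Nat.find hex := ⟨_, rfl⟩
  have hs := Nat.find_spec hex
  rw [← hm] at hs
  cases m with
  | zero => norm_num at hs; linarith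
  | succ m =>
    refine ⟨m, ?_, ?_⟩
    · exact not_lt.1 (Nat.find_min hex (by omega))
    · have h1 : ((2 : ℝ) ^ (m + 1) / 2) ^ 2 = 4 * ((2 : ℝ) ^ m / 2) ^ 2 := by
        rw [pow_succ]; ring
      rw [h1] at hs
      linarith

theorem t : StmtLAT := by
  intro α V hV
  have hV0 : 0 < V := by linarith
  have hn : 0 < ⌊V⌋₊ := Nat.floor_pos.2 hV
  obtain ⟨q, hq1, hq2⟩ := Real.exists_rat_abs_sub_le_and_den_le α hn
  obtain ⟨u₁, hu₁⟩ : ∃ u₁ : ℤ, u₁ = q.num := ⟨_, rfl⟩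
  obtain ⟨v₁, hv₁⟩ : ∃ v₁ : ℤ, v₁ = q.den := ⟨_, rfl⟩
  have hden : (0 : ℝ) < q.den := by exact_mod_cast q.den_pos
  have hv1R : (v₁ : ℝ) = q.den := by rw [hv₁]; simp
  have hv1pos : 1 ≤ v₁ := by
    rw [hv₁]
    exact_mod_cast q.den_pos
  have hv1p : (0 : ℝ) < v₁ := by rw [hv1R]; exact hden
  have hfl : (⌊V⌋₊ : ℝ) ≤ V := Nat.floor_le hV0.le
  have hfl2 : V < (⌊V⌋₊ : ℝ) + 1 := Nat.lt_floor_add_one V
  have hv1V : (v₁ : ℝ) ≤ V := by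
    rw [hv1R]
    have : (q.den : ℝ) ≤ ⌊V⌋₊ := by exact_mod_cast hq2
    linarith
  have hqd : (q : ℝ) * q.den = q.num := by
    have h1 : ((q.num : ℚ) / (q.den : ℚ)) = q := Rat.num_div_den q
    have h2 : (q : ℝ) = (q.num : ℝ) / (q.den : ℝ) := by
      exact_mod_cast (congrArg (fun z : ℚ => (z : ℝ)) h1).symm
    rw [h2]
    field_simp
  have hx1 : |(u₁ : ℝ) - α * v₁| * V ≤ 1 := by
    have h1 : (u₁ : ℝ) - α * v₁ = -((α - q) * q.den) := by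
      rw [hu₁, hv1R]
      linarith
    rw [h1, abs_neg, abs_mul, abs_of_pos hden]
    have h2 : |α - q| * q.den ≤ 1 / (⌊V⌋₊ + 1) := by
      calc |α - q| * q.den ≤ 1 / (((⌊V⌋₊ : ℝ) + 1) * q.den) * q.den :=
            mul_le_mul_of_nonneg_right hq1 hden.le
        _ = 1 / (⌊V⌋₊ + 1) := by field_simp
    calc |α - q| * q.den * V ≤ 1 / (⌊V⌋₊ + 1) * V := mul_le_mul_of_nonneg_right h2 hV0.le
      _ ≤ 1 := by
          rw [div_mul_eq_mul_div, one_mul, div_le_one (by positivity)]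
          exact hfl2.le
  have hcop : IsCoprime u₁ v₁ := by
    rw [hu₁, hv₁]
    exact Rat.isCoprime_num_den q
  obtain ⟨a, b, hab⟩ := hcop
  -- the vectors
  obtain ⟨x₁, hx₁⟩ : ∃ x₁ : ℝ, x₁ = ((u₁ : ℝ) - α * v₁) * V := ⟨_, rfl⟩
  obtain ⟨y₁, hy₁⟩ : ∃ y₁ : ℝ, y₁ = (v₁ : ℝ) / V := ⟨_, rfl⟩
  obtain ⟨x', hx'⟩ : ∃ x' : ℝ, x' = (((-b : ℤ) : ℝ) - α * (a : ℝ)) * V := ⟨_, rfl⟩
  obtain ⟨y', hy'⟩ : ∃ y' : ℝ, y' = (a : ℝ) / V := ⟨_, rfl⟩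
  have hy1pos : 0 < y₁ := by rw [hy₁]; positivity
  have hy1le : y₁ ≤ 1 := by rw [hy₁, div_le_one hV0]; exact hv1V
  have hx1le : |x₁| ≤ 1 := by
    rw [hx₁, abs_mul, abs_of_pos hV0]
    exact hx1
  have hN0 : 0 < x₁ ^ 2 + y₁ ^ 2 := by positivity
  have hN2 : x₁ ^ 2 + y₁ ^ 2 ≤ 2 := by
    have h1 : x₁ ^ 2 ≤ 1 := by
      rw [← sq_abs]
      nlinarith [abs_nonneg x₁]
    nlinarith
  obtain ⟨N₁, hN₁⟩ : ∃ N₁ : ℝ, N₁ = x₁ ^ 2 + y₁ ^ 2 := ⟨_, rfl⟩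
  rw [← hN₁] at hN0 hN2
  obtain ⟨s, hs⟩ : ∃ s : ℝ, s = x₁ * x' + y₁ * y' := ⟨_, rfl⟩
  obtain ⟨r, hr⟩ : ∃ r : ℤ, r = round (-s / N₁) := ⟨_, rfl⟩
  have hround : |s + r * N₁| ≤ N₁ / 2 := by
    have h1 := abs_sub_round (-s / N₁)
    rw [← hr] at h1
    have h2 : s + r * N₁ = -((-s / N₁ - r) * N₁) := by
      field_simp
      ring
    rw [h2, abs_neg, abs_mul, abs_of_pos hN0]
    nlinarith
  obtain ⟨j, hj1, hj2⟩ := scale N₁ hN0 hN2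
  refine ⟨u₁, v₁, -b + r * u₁, a + r * v₁, j, ?_, hv1pos, hx1, hv1V, ?_, ?_⟩
  · linear_combination hab
  · rw [← hx₁, ← hy₁, ← hN₁]
    exact hj1
  · have e1 : (((-b + r * u₁ : ℤ) : ℝ) - α * ((a + r * v₁ : ℤ) : ℝ)) * V = x' + r * x₁ := by
      rw [hx', hx₁]
      push_cast
      ring
    have e2 : ((a + r * v₁ : ℤ) : ℝ) / V = y' + r * y₁ := by
      rw [hy', hy₁]
      push_cast
      ring
    rw [e1, e2]
    have hdet : x₁ * y' - x' * y₁ = 1 := by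
      have h1 : (a : ℝ) * u₁ + b * v₁ = 1 := by exact_mod_cast hab
      rw [hx₁, hy', hx', hy₁]
      push_cast
      field_simp
      linarith
    have hlag : N₁ * ((x' + r * x₁) ^ 2 + (y' + r * y₁) ^ 2) =
        (s + r * N₁) ^ 2 + (x₁ * y' - x' * y₁) ^ 2 := by
      rw [hN₁, hs]
      ring
    rw [hdet] at hlag
    have h3 : (s + r * N₁) ^ 2 ≤ (N₁ / 2) ^ 2 := by
      rw [← sq_abs]
      exact pow_le_pow_left₀ (abs_nonneg _) hround 2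
    have h4 : N₁ * ((x' + r * x₁) ^ 2 + (y' + r * y₁) ^ 2) ≤ 2 := by nlinarith
    have h5 : N₁ * ((x' + r * x₁) ^ 2 + (y' + r * y₁) ^ 2) ≤
        N₁ * (8 * ((2 : ℝ) ^ j / 2) ^ 2) := by linarith
    exact le_of_mul_le_mul_left h5 hN0

end Pool.Agent.W349.HZ.LAT
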