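import Pool.Agent.W223.HZ.Stms

/-! GD2: from a basis to a good form, charts (helper349). -/

set_option autoImplicit false

namespace Pool.Agent.W349.HZ.GD2

open Pool.Agent.W223.HZ

theorem t : StmtGD2 := by
  intro R α V V₀ T hR hα hV hV₀ hVV hV2 hT x y _ u₁ v₁ u₂ v₂ hD hv₁ hN1 hN2
  have hR0 : 0 < R := by linarith
  have hV1 : 1 ≤ V := by linarith
  have hV0 : 0 < V := by linarith
  have hT0 : 0 < T := by linarith
  have hαV : α = R * V := by rw [hV]; field_simp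
  have hv1R : (1 : ℝ) ≤ v₁ := by exact_mod_cast hv₁
  have hDR : (u₁ : ℝ) * v₂ - u₂ * v₁ = 1 := by exact_mod_cast hD
  have id1 : cA x y u₁ v₁ * v₂ ^ 2 + 2 * cB x y u₁ v₁ u₂ v₂ * v₂ * (-v₁) +
      cB x y u₂ v₂ u₁ v₁ * (-v₁) ^ 2 = u₁ := by
    have : cA x y u₁ v₁ * v₂ ^ 2 + 2 * cB x y u₁ v₁ u₂ v₂ * v₂ * (-v₁) +
      cB x y u₂ v₂ u₁ v₁ * (-v₁) ^ 2 = u₁ * (u₁ * v₂ - u₂ * v₁) ^ 2 := by
      unfold cA cB
      ring
    rw [this, hD]
    ring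
  have id2 : cB x y u₁ v₁ u₂ v₂ * v₂ ^ 2 + 2 * cB x y u₂ v₂ u₁ v₁ * v₂ * (-v₁) +
      cA x y u₂ v₂ * (-v₁) ^ 2 = u₂ := by
    have : cB x y u₁ v₁ u₂ v₂ * v₂ ^ 2 + 2 * cB x y u₂ v₂ u₁ v₁ * v₂ * (-v₁) +
      cA x y u₂ v₂ * (-v₁) ^ 2 = u₂ * (u₁ * v₂ - u₂ * v₁) ^ 2 := by
      unfold cA cB
      ring
    rw [this, hD]
    ring
  obtain ⟨x₁, hx₁⟩ : ∃ x₁ : ℝ, x₁ = ((u₁ : ℝ) - α * v₁) * V := ⟨_, rfl⟩
  obtain ⟨y₁, hy₁⟩ : ∃ y₁ : ℝ, y₁ = (v₁ : ℝ) / V := ⟨_, rfl⟩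
  obtain ⟨x₂, hx₂⟩ : ∃ x₂ : ℝ, x₂ = ((u₂ : ℝ) - α * v₂) * V := ⟨_, rfl⟩
  obtain ⟨y₂, hy₂⟩ : ∃ y₂ : ℝ, y₂ = (v₂ : ℝ) / V := ⟨_, rfl⟩
  rw [← hx₁, ← hy₁] at hN1
  rw [← hx₂, ← hy₂] at hN2
  have hy1pos : 0 < y₁ := by rw [hy₁]; positivity
  have hdet : x₁ * y₂ - x₂ * y₁ = 1 := by
    rw [hx₁, hy₂, hx₂, hy₁]
    field_simp
    linarith
  have hx1T : |x₁| * T ≤ 1 := by
    have h1 : (|x₁| * T) ^ 2 ≤ 1 ^ 2 := by
      rw [mul_pow, sq_abs]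
      nlinarith [sq_nonneg (y₁ * T)]
    exact le_of_sq_le_sq h1 (by norm_num)
  have hx1 : |x₁| ≤ 2 := by nlinarith [abs_nonneg x₁]
  have hx2 : |x₂| ≤ 3 * T := by
    refine le_of_sq_le_sq ?_ (by positivity)
    rw [sq_abs]
    nlinarith [sq_nonneg y₂, sq_nonneg T]
  have hone : T ≤ |y₂| + 3 * T ^ 2 * y₁ := by
    have h1 : x₁ * y₂ ≤ |x₁| * |y₂| := by
      rw [← abs_mul]; exact le_abs_self _
    have h2 : -(x₂ * y₁) ≤ |x₂| * y₁ := by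
      have h3 : -x₂ ≤ |x₂| := neg_le_abs _
      nlinarith
    have h3 : T * 1 ≤ T * (|x₁| * |y₂| + |x₂| * y₁) := by
      refine mul_le_mul_of_nonneg_left ?_ hT0.le
      linarith
    have h4 : T * (|x₁| * |y₂|) ≤ |y₂| := by nlinarith [abs_nonneg y₂]
    have h5 : T * (|x₂| * y₁) ≤ T * (3 * T * y₁) :=
      mul_le_mul_of_nonneg_left (mul_le_mul_of_nonneg_right hx2 hy1pos.le) hT0.le
    nlinarith
  by_cases hc : T / 2 ≤ |y₂|
  · right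
    have h1 : |(v₂ : ℝ)| = |y₂| * V := by
      rw [hy₂, abs_div, abs_of_pos hV0]
      field_simp
    have h2 : T / 2 * V₀ ≤ |(v₂ : ℝ)| := by
      rw [h1]
      exact mul_le_mul hc hVV (by linarith) (abs_nonneg _)
    have h0 : 0 ≤ T * V₀ := by positivity
    refine ⟨by linarith, ?_⟩
    rw [id2]
    have h3 : (u₂ : ℝ) = α * v₂ + x₂ / V := by
      rw [hx₂]; field_simp; ring
    have h4 : |x₂ / V| ≤ 3 * T := by
      rw [abs_div, abs_of_pos hV0, div_le_iff₀ hV0]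
      nlinarith
    have h5 : α * |(v₂ : ℝ)| ≤ |(u₂ : ℝ)| + 3 * T := by
      have h6 : |α * (v₂ : ℝ)| = α * |(v₂ : ℝ)| := by rw [abs_mul, abs_of_pos hα]
      have h7 : α * (v₂ : ℝ) = u₂ - x₂ / V := by rw [h3]; ring
      rw [← h6, h7]
      have := abs_sub (u₂ : ℝ) (x₂ / V)
      linarith
    have h6 : R * V₀ * (T / 2 * V₀) ≤ α * |(v₂ : ℝ)| := by
      rw [hαV]
      refine mul_le_mul ?_ h2 (by positivity) (by positivity)
      exact mul_le_mul_of_nonneg_left hVV hR0.le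
    have h7 : 3 * T ≤ R * (T * V₀ ^ 2) / 4 := by
      have h8 : 1 ≤ V₀ ^ 2 := one_le_pow₀ hV₀
      have h9 : 20 * T ≤ R * (T * V₀ ^ 2) := by
        calc 20 * T ≤ R * T := mul_le_mul_of_nonneg_right hR hT0.le
          _ = R * (T * 1) := by ring
          _ ≤ R * (T * V₀ ^ 2) := by gcongr
      linarith
    have h8 : R * V₀ * (T / 2 * V₀) = R * (T * V₀ ^ 2) / 2 := by ring
    have h9 : 0 ≤ R * (T * V₀ ^ 2) := by positivity
    linarith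
  · left
    have hc' := not_le.1 hc
    have h1 : 1 / 6 ≤ T * y₁ := by
      have h2 : T / 2 ≤ 3 * T ^ 2 * y₁ := by linarith
      have h3 : T * (1 / 6) ≤ T * (T * y₁) := by nlinarith
      exact le_of_mul_le_mul_left h3 hT0
    have h2 : V / 6 ≤ T * v₁ := by
      have h3 : T * v₁ = (T * y₁) * V := by rw [hy₁]; field_simp
      rw [h3]
      nlinarith
    refine ⟨?_, ?_⟩
    · have h3 : |((-v₁ : ℤ) : ℝ)| = v₁ := by
        push_cast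
        rw [abs_neg, abs_of_pos (by linarith)]
      rw [h3]
      nlinarith
    · rw [id1]
      have h3 : (u₁ : ℝ) = α * v₁ + x₁ / V := by
        rw [hx₁]; field_simp; ring
      have h4 : |x₁ / V| ≤ 2 := by
        rw [abs_div, abs_of_pos hV0, div_le_iff₀ hV0]
        nlinarith
      have h5 : α * v₁ - 2 ≤ |(u₁ : ℝ)| := by
        have h6 := (abs_le.1 h4).1
        have h7 := le_abs_self (u₁ : ℝ)
        linarith
      have h6 : 20 ≤ α * v₁ := by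
        rw [hαV]
        have h7 : 20 * 1 ≤ R * V := mul_le_mul hR hV1 (by norm_num) hR0.le
        nlinarith
      have h7 : α * v₁ / 2 ≤ |(u₁ : ℝ)| := by linarith
      have h8 : R * V₀ ^ 2 / 12 ≤ T * |(u₁ : ℝ)| := by
        calc R * V₀ ^ 2 / 12 ≤ R * V ^ 2 / 12 := by gcongr
          _ = R * V * (V / 6) / 2 := by ring
          _ ≤ R * V * (T * v₁) / 2 := by gcongr
          _ = T * (α * v₁ / 2) := by rw [hαV]; ring
          _ ≤ T * |(u₁ : ℝ)| := mul_le_mul_of_nonneg_left h7 hT0.le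
      have h9 : 0 ≤ R * V₀ ^ 2 := by positivity
      linarith

end Pool.Agent.W349.HZ.GD2
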